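import Pool.Agent.R505.ES.Dim

/-!
# MP_b6b996_nt: the points at which the Möbius exponential sum is large

Let `F_N(x) = ∑_{n ≤ N} μ(n) e(nx)`.  The problem asks whether `F_N(x) = O(N^(1/2+ε))` uniformly in `x`; the
known uniform bound (under GRH) has the exponent `3/4`.  We bound the size of the set of the `x` at which the
bound `O(N^σ)` fails.

* There is a set `E` of Hausdorff dimension at most `2 - 2σ` such that for every real `x` outside `E` the bound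
  `O(N^σ)` holds at all rational affine images `r x + s` of `x` at once, and for the sums over all residue
  classes.
* For each single `N` the points of a unit interval at which one of the sums `F_M`, `M ≤ N`, is at least `V` in
  absolute value are covered by `192 ((2 + log N) N / V)²` intervals of length `1/N`.

Both hold for arbitrary coefficients bounded by `1`.  The proof: the sums `F_M`, `M ≤ N`, are bounded by a
weighted mean of the translates of `|F_N|` (weights of total mass `2 + log N`); this gives the mean value of the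
maximal function, and partial summation makes it constant at the scale `1/N`.
-/

set_option autoImplicit false

open Finset MeasureTheory

namespace Pool.Agent.Results.MP_b6b996_nt.ExceptionalPoints

open Pool.Agent.R505.ES (ps Exc dim_exc good_residue cover)

open Pool.Agent.W928.MW (e e_add e_norm)

theorem exp_eq (x : ℝ) (n : ℕ) :
    Complex.exp (2 * (Real.pi : ℂ) * Complex.I * (n : ℂ) * (x : ℂ)) = e (x * n) := by
  unfold Pool.Agent.W928.MW.e
  congr 1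
  push_cast
  ring

theorem sum_exp (c : ℕ → ℂ) (S : Finset ℕ) (x : ℝ) :
    ∑ n ∈ S, c n * Complex.exp (2 * (Real.pi : ℂ) * Complex.I * (n : ℂ) * (x : ℂ)) =
      ∑ n ∈ S, c n * e (x * n) :=
  Finset.sum_congr rfl fun n _ => by rw [exp_eq]

/-- The general statement, for a sequence of coefficients `c` and an exponent `σ`. -/
def Statement (c : ℕ → ℂ) : Prop :=
  (∀ σ : ℝ, ∃ E : Set ℝ, dimH E ≤ ENNReal.ofReal (2 - 2 * σ) ∧
    ∀ x : ℝ, x ∉ E → ∀ r s : ℚ, r ≠ 0 → ∀ q b : ℕ, 0 < q → ∃ C : ℝ, ∀ N : ℕ, 1 ≤ N →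
      ‖∑ n ∈ (Icc 1 N).filter (fun n => n ≡ b [MOD q]),
        c n * Complex.exp (2 * (Real.pi : ℂ) * Complex.I * (n : ℂ) * (((r : ℝ) * x + s : ℝ) : ℂ))‖ ≤
          C * (N : ℝ) ^ σ) ∧
  (∀ N : ℕ, 1 ≤ N → ∀ (j : ℤ) (V : ℝ), 0 < V → ∃ S : Finset ℝ,
    (S.card : ℝ) ≤ 192 * ((2 + Real.log N) * N / V) ^ 2 ∧
    ∀ x : ℝ, (j : ℝ) ≤ x → x ≤ (j : ℝ) + 1 → ∀ M : ℕ, M ≤ N →
      V ≤ ‖∑ n ∈ Icc 1 M, c n * Complex.exp (2 * (Real.pi : ℂ) * Complex.I * (n : ℂ) * (x : ℂ))‖ →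
        ∃ y ∈ S, y ≤ x ∧ x ≤ y + 1 / (N : ℝ))

theorem statement (c : ℕ → ℂ) (hc : ∀ n, ‖c n‖ ≤ 1) : Statement c := by
  refine ⟨fun σ => ⟨Exc c σ, dim_exc c hc σ, fun x hx r s hr q b hq => ?_⟩, fun N hN j V hV => ?_⟩
  · obtain ⟨C, hC⟩ := good_residue c σ x hx r s hr q b hq
    refine ⟨C, fun N hN => ?_⟩
    have h := hC N hN
    rw [sum_exp]
    exact h
  · obtain ⟨S, hS1, hS2⟩ := cover c hc N hN j V hV
    refine ⟨S, hS1, fun x hx1 hx2 M hM hVM => ?_⟩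
    rw [sum_exp] at hVM
    have h := hS2 (show x ∈ {x : ℝ | x ∈ Set.Icc (j : ℝ) ((j : ℝ) + 1) ∧
      ∃ m : ℕ, m ≤ N ∧ V ≤ ‖ps c m x‖} from ⟨⟨hx1, hx2⟩, M, hM, hVM⟩)
    rw [Set.mem_iUnion₂] at h
    obtain ⟨y, hy, h1, h2⟩ := h
    exact ⟨y, hy, h1, h2⟩

/-- The statement for the Möbius function, and for all coefficients bounded by `1`; `Statement` is unfolded for
the Möbius function. -/
theorem result :
    (∀ σ : ℝ, ∃ E : Set ℝ, dimH E ≤ ENNReal.ofReal (2 - 2 * σ) ∧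
      ∀ x : ℝ, x ∉ E → ∀ r s : ℚ, r ≠ 0 → ∀ q b : ℕ, 0 < q → ∃ C : ℝ, ∀ N : ℕ, 1 ≤ N →
        ‖∑ n ∈ (Icc 1 N).filter (fun n => n ≡ b [MOD q]), ((ArithmeticFunction.moebius n : ℤ) : ℂ) *
          Complex.exp (2 * (Real.pi : ℂ) * Complex.I * (n : ℂ) * (((r : ℝ) * x + s : ℝ) : ℂ))‖ ≤
            C * (N : ℝ) ^ σ) ∧
    (∀ N : ℕ, 1 ≤ N → ∀ (j : ℤ) (V : ℝ), 0 < V → ∃ S : Finset ℝ,
      (S.card : ℝ) ≤ 192 * ((2 + Real.log N) * N / V) ^ 2 ∧
      ∀ x : ℝ, (j : ℝ) ≤ x → x ≤ (j : ℝ) + 1 → ∀ M : ℕ, M ≤ N →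
        V ≤ ‖∑ n ∈ Icc 1 M, ((ArithmeticFunction.moebius n : ℤ) : ℂ) *
          Complex.exp (2 * (Real.pi : ℂ) * Complex.I * (n : ℂ) * (x : ℂ))‖ →
          ∃ y ∈ S, y ≤ x ∧ x ≤ y + 1 / (N : ℝ)) ∧
    (∀ c : ℕ → ℂ, (∀ n, ‖c n‖ ≤ 1) → Statement c) := by
  have hmu : ∀ n : ℕ, ‖((ArithmeticFunction.moebius n : ℤ) : ℂ)‖ ≤ 1 := by
    intro n
    rw [Complex.norm_intCast]
    exact_mod_cast ArithmeticFunction.abs_moebius_le_one
  have h := statement (fun n => ((ArithmeticFunction.moebius n : ℤ) : ℂ)) hmu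
  exact ⟨h.1, h.2, statement⟩

end Pool.Agent.Results.MP_b6b996_nt.ExceptionalPoints
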