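import Pool.Agent.R303.SW.Ban2

/-!
# The Moebius exponential sum near the origin, for every length

`F_R(x) = ∑_{n ≤ R} μ(n) e(nx)`.

1. If `ζ` has a zero with real part `> θ ≥ 1/2`, then for all `κ ≥ 0` with `4θ(1-θ)(κ+1) ≤ 1`, all
   `c > 0`, all `0 < ε < 1`, all large `Q` and all `R ≤ Q - cQ/(log Q)^κ`, the block
   `F_Q(x) - F_R(x)` satisfies `|F_Q(x) - F_R(x)| ≥ Q^θ` for some `x` with `|x| ≤ Q^(-1+ε)`.
2. The Riemann hypothesis holds if and only if for every `0 < ε < 1` there are arbitrarily large `Q` and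
   some `R ≤ Q/2` (depending on `Q`) with `|F_Q(x) - F_R(x)| ≤ Q^(1/2+2ε)` for all `|x| ≤ Q^(-1+ε)`.
-/

set_option autoImplicit false
set_option maxHeartbeats 4000000

open Filter Topology Set MeasureTheory
open Pool.Agent.W190 (SF rh_free)
open Pool.Agent.R303.SW

namespace Pool.Agent.Results.MP_b6b996_nt.NearTheOrigin

/-- The Moebius exponential sum `F_R(x) = ∑_{n=1}^R μ(n) e^{2πinx}`. -/
noncomputable def F (R : ℕ) (x : ℝ) : ℂ :=
  ∑ n ∈ Finset.Icc 1 R, ((ArithmeticFunction.moebius n : ℤ) : ℂ) *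
    Complex.exp (2 * Real.pi * Complex.I * n * x)

lemma F_sub {R Q : ℕ} (h : R ≤ Q) (x : ℝ) : F Q x - F R x = ES (Finset.Ioc R Q) muR x := by
  unfold F ES
  have e1 : Finset.Icc 1 Q = Finset.Icc 1 R ∪ Finset.Ioc R Q := by
    ext n
    simp only [Finset.mem_union, Finset.mem_Icc, Finset.mem_Ioc]
    omega
  rw [e1, Finset.sum_union (Finset.disjoint_left.2 fun n h1 h2 => by
    rw [Finset.mem_Icc] at h1
    rw [Finset.mem_Ioc] at h2
    omega), add_sub_cancel_left]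
  refine Finset.sum_congr rfl fun n _ => ?_
  unfold muR
  push_cast
  rfl

theorem part1 (θ κ c ε : ℝ) (hθ : 1 / 2 ≤ θ) (hκ : 0 ≤ κ) (hcond : 4 * θ * (1 - θ) * (κ + 1) ≤ 1)
    (hc : 0 < c) (hε : 0 < ε) (hε1 : ε < 1) (hz : ∃ s : ℂ, riemannZeta s = 0 ∧ θ < s.re) :
    ∀ᶠ Q : ℕ in atTop, ∀ R : ℕ, (R : ℝ) ≤ Q - c * Q / Real.log Q ^ κ →
      ∃ x : ℝ, |x| ≤ (Q : ℝ) ^ (-1 + ε) ∧ (Q : ℝ) ^ θ ≤ ‖F Q x - F R x‖ := by
  obtain ⟨s, hs, hsθ⟩ := hz
  set θ' := (θ + s.re) / 2 with hθ'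
  have hθ1 : θ < θ' := by rw [hθ']; linarith
  have hθ2 : θ' < s.re := by rw [hθ']; linarith
  have hcond' : 4 * θ' * (1 - θ') * (κ + 1) ≤ 1 := by
    refine le_trans ?_ hcond
    refine mul_le_mul_of_nonneg_right ?_ (by linarith)
    nlinarith
  set cc := min c (1 / 2) with hcc
  have hcc0 : 0 < cc := lt_min hc (by norm_num)
  have hcc1 : cc ≤ c := min_le_left _ _
  have hcc2 : cc ≤ 1 / 2 := min_le_right _ _
  have key := band_low (θ := θ') (κ := κ) (c := cc / 2 ^ κ) (ε := ε / 2) (by linarith) hκ hcond'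
    (by positivity) (by linarith) ⟨s, hs, hθ2⟩
  obtain ⟨X₀, hX₀⟩ := eventually_atTop.1 key
  have t1 : ∀ᶠ X : ℝ in atTop, (2:ℝ) ^ (1 - ε / 2) ≤ X ^ (ε / 2) :=
    (tendsto_rpow_atTop (by linarith)).eventually_ge_atTop _
  have t2 : ∀ᶠ X : ℝ in atTop, (2:ℝ) ^ θ' < X ^ (θ' - θ) :=
    (tendsto_rpow_atTop (by linarith)).eventually_gt_atTop _
  have hcast : Tendsto (fun n : ℕ => (n : ℝ)) atTop atTop := tendsto_natCast_atTop_atTop
  filter_upwards [hcast.eventually t1, hcast.eventually t2, hcast.eventually (eventually_ge_atTop (2 * X₀)),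
    hcast.eventually (eventually_ge_atTop (8:ℝ))] with Q a1 a2 a3 a4 R hR
  have hQ : (0:ℝ) < Q := by linarith
  have hlogQ : 1 < Real.log Q := by
    rw [Real.lt_log_iff_exp_lt hQ]
    have := Real.exp_one_lt_d9
    linarith
  have hlk : 1 ≤ Real.log Q ^ κ := Real.one_le_rpow hlogQ.le hκ
  set X := (Q : ℝ) - cc * Q / Real.log Q ^ κ with hX
  have hw : cc * Q / Real.log Q ^ κ ≤ Q / 2 := by
    have : cc * Q / Real.log Q ^ κ ≤ cc * Q := div_le_self (by positivity) hlk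
    nlinarith
  have hw0 : 0 ≤ cc * Q / Real.log Q ^ κ := by positivity
  have hX2 : (Q : ℝ) / 2 ≤ X := by rw [hX]; linarith
  have hXQ : X ≤ Q := by rw [hX]; linarith
  have hX0 : 0 < X := by linarith
  have hRX : (R : ℝ) ≤ X := by
    refine hR.trans ?_
    rw [hX]
    have : cc * Q / Real.log Q ^ κ ≤ c * Q / Real.log Q ^ κ := by gcongr
    linarith
  have hRQ : R ≤ Q := by
    have : (R : ℝ) ≤ Q := hRX.trans hXQ
    exact_mod_cast this
  have hlog' : Real.log Q / 2 ≤ Real.log X := by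
    have h1 : Real.sqrt Q ≤ X := by
      refine le_trans ?_ hX2
      rw [Real.sqrt_le_left (by linarith)]
      nlinarith
    have h2 := Real.log_le_log (Real.sqrt_pos.2 hQ) h1
    rwa [Real.log_sqrt hQ.le] at h2
  have hend : X + cc / 2 ^ κ * X / Real.log X ^ κ ≤ Q := by
    have h2 : (Real.log Q / 2) ^ κ ≤ Real.log X ^ κ := Real.rpow_le_rpow (by linarith) hlog' hκ
    have h3 : 0 < (Real.log Q / 2) ^ κ := Real.rpow_pos_of_pos (by linarith) _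
    have h4 : cc / 2 ^ κ * X / Real.log X ^ κ ≤ cc * Q / Real.log Q ^ κ := by
      calc cc / 2 ^ κ * X / Real.log X ^ κ ≤ cc / 2 ^ κ * Q / (Real.log Q / 2) ^ κ := by gcongr
        _ = cc * Q / Real.log Q ^ κ := by
            rw [Real.div_rpow (by linarith) (by norm_num)]
            have : 0 < Real.log Q ^ κ := Real.rpow_pos_of_pos (by linarith) _
            field_simp
    rw [hX] at h4 ⊢
    linarith
  by_contra hcon
  push Not at hcon
  have h5 := hX₀ X (by linarith) R Q hRX hend (by linarith) ((Q : ℝ) ^ θ) (fun x hx => by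
    rw [← F_sub hRQ]
    refine (hcon x (hx.trans ?_)).le
    calc X ^ (-1 + ε / 2) ≤ ((Q : ℝ) / 2) ^ (-1 + ε / 2) :=
          Real.rpow_le_rpow_of_nonpos (by positivity) hX2 (by linarith)
      _ = 2 ^ (1 - ε / 2) * (Q : ℝ) ^ (-1 + ε / 2) := by
          rw [Real.div_rpow hQ.le (by norm_num), div_eq_mul_inv, ← Real.rpow_neg (by norm_num), mul_comm]
          congr 2
          ring
      _ ≤ (Q : ℝ) ^ (ε / 2) * (Q : ℝ) ^ (-1 + ε / 2) := by gcongr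
      _ = (Q : ℝ) ^ (-1 + ε) := by
          rw [← Real.rpow_add hQ]
          congr 1
          ring)
  have h6 : (Q : ℝ) ^ θ < X ^ θ' := by
    calc (Q : ℝ) ^ θ < ((Q : ℝ) / 2) ^ θ' := by
          rw [Real.div_rpow hQ.le (by norm_num), lt_div_iff₀ (by positivity)]
          calc (Q : ℝ) ^ θ * 2 ^ θ' < (Q : ℝ) ^ θ * (Q : ℝ) ^ (θ' - θ) := by gcongr
            _ = (Q : ℝ) ^ θ' := by rw [← Real.rpow_add hQ]; congr 1; ring
      _ ≤ _ := Real.rpow_le_rpow (by positivity) hX2 (by linarith)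
  linarith

lemma abel (c : ℕ → ℂ) (z : ℂ) (Q : ℕ) : ∑ n ∈ Finset.Icc 1 Q, c n * z ^ n =
    (∑ n ∈ Finset.Icc 1 Q, c n) * z ^ Q -
      ∑ m ∈ Finset.range Q, (∑ n ∈ Finset.Icc 1 m, c n) * (z ^ (m + 1) - z ^ m) := by
  induction Q with
  | zero => simp
  | succ Q ih =>
    rw [Finset.sum_Icc_succ_top (by omega), Finset.sum_Icc_succ_top (by omega), ih,
      Finset.sum_range_succ]
    ring

lemma abel_bd (c : ℕ → ℂ) (x K : ℝ) (Q : ℕ)
    (hK : ∀ m ≤ Q, ‖∑ n ∈ Finset.Icc 1 m, c n‖ ≤ K) :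
    ‖∑ n ∈ Finset.Icc 1 Q, c n * Complex.exp (2 * Real.pi * Complex.I * n * x)‖ ≤
      K * (1 + Q * (2 * Real.pi * |x|)) := by
  set z := Complex.exp (Complex.I * ((2 * Real.pi * x : ℝ) : ℂ)) with hz
  have hz1 : ‖z‖ = 1 := by
    rw [hz, mul_comm, Complex.norm_exp_ofReal_mul_I]
  have hz2 : ‖z - 1‖ ≤ 2 * Real.pi * |x| := by
    have := Real.norm_exp_I_mul_ofReal_sub_one_le (x := 2 * Real.pi * x)
    rw [Real.norm_eq_abs, abs_mul, abs_of_pos (by positivity : 0 < 2 * Real.pi)] at this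
    exact this
  have e : ∀ n : ℕ, Complex.exp (2 * Real.pi * Complex.I * n * x) = z ^ n := by
    intro n
    rw [hz, ← Complex.exp_nat_mul]
    congr 1
    push_cast
    ring
  simp only [e]
  rw [abel]
  have hK0 : 0 ≤ K := (norm_nonneg _).trans (hK 0 (by omega))
  refine (norm_sub_le _ _).trans ?_
  have h1 : ‖(∑ n ∈ Finset.Icc 1 Q, c n) * z ^ Q‖ ≤ K := by
    rw [norm_mul, norm_pow, hz1, one_pow, mul_one]
    exact hK Q le_rfl
  have h2 : ‖∑ m ∈ Finset.range Q, (∑ n ∈ Finset.Icc 1 m, c n) * (z ^ (m + 1) - z ^ m)‖ ≤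
      ∑ m ∈ Finset.range Q, K * (2 * Real.pi * |x|) := by
    refine (norm_sum_le _ _).trans (Finset.sum_le_sum fun m hm => ?_)
    rw [norm_mul]
    have e2 : z ^ (m + 1) - z ^ m = z ^ m * (z - 1) := by ring
    rw [e2, norm_mul, norm_pow, hz1, one_pow, one_mul]
    exact mul_le_mul (hK m (Finset.mem_range.1 hm).le) hz2 (norm_nonneg _) hK0
  rw [Finset.sum_const, Finset.card_range, nsmul_eq_mul] at h2
  linarith

theorem part2a (hrh : RiemannHypothesis) (ε : ℝ) (hε : 0 < ε) :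
    ∃ᶠ Q : ℕ in atTop, ∃ R : ℕ, 2 * R ≤ Q ∧
      ∀ x : ℝ, |x| ≤ (Q : ℝ) ^ (-1 + ε) → ‖F Q x - F R x‖ ≤ (Q : ℝ) ^ (1 / 2 + 2 * ε) := by
  obtain ⟨C, hC⟩ := H353.mertens_of_free (1 / 2) le_rfl (rh_free.1 hrh) (1 / 2 + ε / 2) (by linarith)
  have hC0 : 0 ≤ C := by
    have := (abs_nonneg _).trans (hC 1 le_rfl)
    simpa using this
  have t1 : ∀ᶠ X : ℝ in atTop, C * (1 + 2 * Real.pi) ≤ X ^ (ε / 2) :=
    (tendsto_rpow_atTop (by linarith)).eventually_ge_atTop _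
  have hcast : Tendsto (fun n : ℕ => (n : ℝ)) atTop atTop := tendsto_natCast_atTop_atTop
  refine Eventually.frequently ?_
  filter_upwards [hcast.eventually t1, hcast.eventually (eventually_ge_atTop (1:ℝ))] with Q g1 g2
  have hQ : (0:ℝ) < Q := by linarith
  refine ⟨0, by omega, fun x hx => ?_⟩
  have hF0 : F 0 x = 0 := by
    unfold F
    simp
  rw [hF0, sub_zero]
  have h1 := abel_bd (fun n => ((ArithmeticFunction.moebius n : ℤ) : ℂ)) x
    (C * (Q : ℝ) ^ (1 / 2 + ε / 2)) Q (fun m hm => by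
      have e : ∑ n ∈ Finset.Icc 1 m, ((ArithmeticFunction.moebius n : ℤ) : ℂ) =
          ((∑ n ∈ Finset.Icc 1 m, ((ArithmeticFunction.moebius n : ℤ) : ℝ) : ℝ) : ℂ) := by
        push_cast
        rfl
      rw [e, Complex.norm_real, Real.norm_eq_abs]
      rcases Nat.eq_zero_or_pos m with h | h
      · rw [h]
        simp
        positivity
      · have h2 := hC (m : ℝ) (by exact_mod_cast h)
        rw [Nat.floor_natCast] at h2
        refine h2.trans ?_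
        refine mul_le_mul_of_nonneg_left ?_ hC0
        exact Real.rpow_le_rpow (by positivity) (by exact_mod_cast hm) (by linarith))
  refine (show ‖F Q x‖ ≤ _ from h1).trans ?_
  have hpi := Real.pi_pos
  have h3 : (Q : ℝ) * |x| ≤ (Q : ℝ) ^ ε := by
    calc (Q : ℝ) * |x| ≤ (Q : ℝ) * (Q : ℝ) ^ (-1 + ε) := by gcongr
      _ = (Q : ℝ) ^ ε := by
          rw [mul_comm, ← Real.rpow_add_one hQ.ne']
          congr 1
          ring
  have h4 : (1:ℝ) ≤ (Q : ℝ) ^ ε := Real.one_le_rpow g2 hε.le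
  calc C * (Q : ℝ) ^ (1 / 2 + ε / 2) * (1 + Q * (2 * Real.pi * |x|))
      = C * (Q : ℝ) ^ (1 / 2 + ε / 2) * (1 + 2 * Real.pi * (Q * |x|)) := by ring
    _ ≤ C * (Q : ℝ) ^ (1 / 2 + ε / 2) * ((Q : ℝ) ^ ε + 2 * Real.pi * (Q : ℝ) ^ ε) := by gcongr
    _ = C * (1 + 2 * Real.pi) * ((Q : ℝ) ^ (1 / 2 + ε / 2) * (Q : ℝ) ^ ε) := by ring
    _ ≤ (Q : ℝ) ^ (ε / 2) * ((Q : ℝ) ^ (1 / 2 + ε / 2) * (Q : ℝ) ^ ε) := by gcongr
    _ = (Q : ℝ) ^ (1 / 2 + 2 * ε) := by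
        rw [← Real.rpow_add hQ, ← Real.rpow_add hQ]
        congr 1
        ring

theorem part2b (h : ∀ ε : ℝ, 0 < ε → ε < 1 → ∃ᶠ Q : ℕ in atTop, ∃ R : ℕ, 2 * R ≤ Q ∧
      ∀ x : ℝ, |x| ≤ (Q : ℝ) ^ (-1 + ε) → ‖F Q x - F R x‖ ≤ (Q : ℝ) ^ (1 / 2 + 2 * ε)) :
    RiemannHypothesis := by
  rw [rh_free]
  intro s hs hz
  have hs1 : s.re < 1 := (Pool.Agent.W190.zero_FF hz).2
  set θ := (1 / 2 + s.re) / 2 with hθ
  have h1 : 1 / 2 < θ := by rw [hθ]; linarith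
  have h2 : θ < s.re := by rw [hθ]; linarith
  set ε := (2 * θ - 1) / 8 with hε
  have hε0 : 0 < ε := by rw [hε]; linarith
  have hε1 : ε < 1 := by rw [hε]; linarith
  have h3 := part1 θ 0 (1 / 2) ε h1.le le_rfl (by nlinarith [sq_nonneg (2 * θ - 1)]) (by norm_num) hε0 hε1
    ⟨s, hz, h2⟩
  obtain ⟨Q, ⟨R, a1, a2⟩, a3, a4⟩ := ((h ε hε0 hε1).and_eventually (h3.and (eventually_gt_atTop 1))).exists
  have hQ1 : (1:ℝ) < Q := by exact_mod_cast a4
  obtain ⟨x, hx1, hx2⟩ := a3 R (by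
    have : 2 * (R : ℝ) ≤ Q := by exact_mod_cast a1
    rw [Real.rpow_zero]
    linarith)
  have h5 := hx2.trans (a2 x hx1)
  have h6 := (Real.rpow_le_rpow_left_iff hQ1).1 h5
  rw [hε] at h6
  linarith

/-- The Moebius exponential sum near the origin, for every length. -/
theorem result :
    (∀ θ κ c ε : ℝ, 1 / 2 ≤ θ → 0 ≤ κ → 4 * θ * (1 - θ) * (κ + 1) ≤ 1 → 0 < c → 0 < ε → ε < 1 →
      (∃ s : ℂ, riemannZeta s = 0 ∧ θ < s.re) →
      ∀ᶠ Q : ℕ in atTop, ∀ R : ℕ, (R : ℝ) ≤ Q - c * Q / Real.log Q ^ κ →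
        ∃ x : ℝ, |x| ≤ (Q : ℝ) ^ (-1 + ε) ∧ (Q : ℝ) ^ θ ≤ ‖F Q x - F R x‖) ∧
    (RiemannHypothesis ↔ ∀ ε : ℝ, 0 < ε → ε < 1 → ∃ᶠ Q : ℕ in atTop, ∃ R : ℕ, 2 * R ≤ Q ∧
      ∀ x : ℝ, |x| ≤ (Q : ℝ) ^ (-1 + ε) → ‖F Q x - F R x‖ ≤ (Q : ℝ) ^ (1 / 2 + 2 * ε)) :=
  ⟨part1, fun h ε hε _ => part2a h ε hε, part2b⟩

end Pool.Agent.Results.MP_b6b996_nt.NearTheOrigin
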