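import Pool.Agent.R346.TH.Wrap

/-!
# MP_b6b996_nt: random thinnings of the Möbius exponential sum

Let `F_R(x) = ∑_{n ≤ R} μ(n) e(nx)`.  The problem asks whether `F_R(x) = O(R^(1/2+ε))` uniformly in `x`.

Let `A` be a random set of positive integers, the events `n ∈ A` being independent of probability `p n^(-c)`
(`0 < p ≤ 1`, `0 ≤ c < 1`; so `A` has about `R^(1-c)` elements up to `R`).  We show that for every
`a ≥ (1+c)/2` the bound `F_R(x) = O(R^(a+ε))` is equivalent to the bound
`∑_{n ≤ R, n ∈ A} μ(n) e(nx) = O(R^(a-c+ε))`, almost surely, and also to the latter with positive probability.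

* `c = 0`, `a = 1/2`: the bound asked for in Q1 holds if and only if it holds for the sum over a random
  set of density `p`.
* `a = (1+c)/2`: the growth exponent is at most `(1+c)/2` if and only if the sum over a random set with about
  `R^(1-c)` elements has square root cancellation, uniformly in `x`.

Proof: the centred sum is `O(R^((1-c)/2+ε))` almost surely (Chernoff's bound on a grid of step `R^(-2)`, the
Borel-Cantelli lemma), and partial summation with the weights `n^(-c)`, both ways.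
-/

set_option autoImplicit false

open MeasureTheory ProbabilityTheory

namespace Pool.Agent.Results.MP_b6b996_nt.RandomThinnings

universe u

open Classical in
/-- The Möbius exponential sum over the elements of `A`: `∑_{n ≤ R, n ∈ A} μ(n) e(nx)`. -/
noncomputable def sumOver (A : Set ℕ) (R : ℕ) (x : ℝ) : ℂ :=
  ∑ n ∈ (Finset.Icc 1 R).filter (fun n => n ∈ A),
    ((ArithmeticFunction.moebius n : ℤ) : ℂ) * Complex.exp (2 * Real.pi * Complex.I * n * x)

/-- `G_R(x) = O(R^(a + ε))` for every `ε > 0`, uniformly in the real number `x`. -/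
def HasExponent (G : ℕ → ℝ → ℂ) (a : ℝ) : Prop :=
  ∀ ε : ℝ, 0 < ε → ∃ C : ℝ, ∀ (R : ℕ) (x : ℝ), ‖G R x‖ ≤ C * (R : ℝ) ^ (a + ε)

theorem sumOver_univ : sumOver Set.univ = Pool.Agent.R346.TH.F := by
  funext R x
  unfold sumOver Pool.Agent.R346.TH.F Pool.Agent.R346.TH.mu Pool.Agent.R346.TH.ee
  refine Finset.sum_congr ?_ fun _ _ => rfl
  ext n
  simp

/-- Let the events `S n` (`n ∈ A`, for a random set `A`) be independent, with `P(S n) = p n^(-c)` for `n ≥ 1`,
`0 < p ≤ 1`, `0 ≤ c < 1`.

For `a ≥ (1+c)/2` the bound `F_R(x) = O(R^(a+ε))` for the Möbius exponential sum holds if and only if the bound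
`O(R^(a-c+ε))` holds for the sum over `A` almost surely, and if and only if it holds for the sum over `A` with
positive probability.  The sum over `A` differs from `∑_{n ≤ R} p n^(-c) μ(n) e(nx)` by `O(R^((1-c)/2+ε))`,
uniformly in `x`, almost surely. -/
theorem result {Ω : Type u} [MeasurableSpace Ω] (P : Measure Ω) [IsProbabilityMeasure P]
    (S : ℕ → Set Ω) (p c : ℝ) (hp : 0 < p) (hp1 : p ≤ 1) (hc : 0 ≤ c) (hc1 : c < 1)
    (hS : ∀ n, MeasurableSet (S n)) (hind : iIndepSet S P)
    (hP : ∀ n : ℕ, 1 ≤ n → P.real (S n) = p * (n : ℝ) ^ (-c)) :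
    (∀ a : ℝ, (1 + c) / 2 ≤ a →
      (HasExponent (sumOver Set.univ) a ↔
        ∀ᵐ ω ∂P, HasExponent (sumOver {n | ω ∈ S n}) (a - c)) ∧
      (HasExponent (sumOver Set.univ) a ↔
        ∃ᵐ ω ∂P, HasExponent (sumOver {n | ω ∈ S n}) (a - c))) ∧
    ∀ᵐ ω ∂P, HasExponent (fun R x => sumOver {n | ω ∈ S n} R x -
      ∑ n ∈ Finset.Icc 1 R, ((p * (n : ℝ) ^ (-c) : ℝ) : ℂ) *
        (((ArithmeticFunction.moebius n : ℤ) : ℂ) * Complex.exp (2 * Real.pi * Complex.I * n * x)))
      ((1 - c) / 2) := by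
  have hD : Pool.Agent.R346.TH.Dat P S p c := ⟨inferInstance, hS, hind, hp, hp1, hc, hc1, hP⟩
  refine ⟨fun a ha => ?_, Pool.Agent.R346.TH.diff_bound Pool.Agent.R346.TH.tail hD⟩
  have h : ∀ᵐ ω ∂P, (HasExponent (sumOver {n | ω ∈ S n}) (a - c) ↔
      HasExponent (sumOver Set.univ) a) := by
    rw [sumOver_univ]
    exact Pool.Agent.R346.TH.ae_iff_F hD a ha
  have hfwd : HasExponent (sumOver Set.univ) a →
      ∀ᵐ ω ∂P, HasExponent (sumOver {n | ω ∈ S n}) (a - c) := by
    intro hb
    filter_upwards [h] with ω hω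
    exact hω.2 hb
  refine ⟨⟨hfwd, fun hb => ?_⟩, ⟨fun hb => (hfwd hb).frequently, fun hb => ?_⟩⟩
  · obtain ⟨ω, h1, h2⟩ := (hb.and h).exists
    exact h2.1 h1
  · obtain ⟨ω, h1, h2⟩ := (hb.and_eventually h).exists
    exact h2.1 h1

end Pool.Agent.Results.MP_b6b996_nt.RandomThinnings
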